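import Mathlib

set_option autoImplicit false
set_option linter.unusedSimpArgs false

open MeasureTheory Set Metric
open scoped ContDiff RealInnerProductSpace

namespace Pool.Agent.Results.MP_627409_gt.AntiHopf

/-- Euclidean four-space, identified with the quaternions by `x₀ + x₁ i + x₂ j + x₃ k`. -/
abbrev E4 : Type := EuclideanSpace ℝ (Fin 4)

/-- `J₀`, left multiplication by `i`, in coordinates. -/
noncomputable def j0 (x : E4) : E4 := !₂[-x 1, x 0, -x 3, x 2]

/-- `J₁`, left multiplication by `j`, in coordinates. -/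
noncomputable def j1 (x : E4) : E4 := !₂[-x 2, x 3, x 0, -x 1]

/-- `J₂`, left multiplication by `k`, in coordinates. -/
noncomputable def j2 (x : E4) : E4 := !₂[-x 3, -x 2, x 1, x 0]

/-- The Berger metric `g_μ` at the point `x` of the unit sphere, on tangent vectors `v, w`:
`⟨v, w⟩ + (μ - 1) ⟨J₀x, v⟩ ⟨J₀x, w⟩`. -/
noncomputable def berger (μ : ℝ) (x v w : E4) : ℝ := ⟪v, w⟫ + (μ - 1) * (⟪j0 x, v⟫ * ⟪j0 x, w⟫)

/-- Smooth vector fields on the unit sphere `S³`, given as restrictions of smooth maps of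
four-space: `Y x` is tangent to the sphere at each `x` of the sphere. -/
def IsField (Y : E4 → E4) : Prop := ContDiff ℝ ∞ Y ∧ ∀ x, ‖x‖ = 1 → ⟪x, Y x⟫ = 0

/-- `D x w Y` stands for `∇_w Y` at the point `x` of `S³`: candidates for connections. -/
abbrev Op : Type := E4 → E4 → (E4 → E4) → E4

/-- `∇_X Y` is a smooth vector field for smooth vector fields `X, Y`. -/
def Smooth (D : Op) : Prop :=
  ∀ X Y, IsField X → IsField Y → ∃ Z, IsField Z ∧ ∀ x, ‖x‖ = 1 → Z x = D x (X x) Y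

/-- `∇_w Y` is linear in the tangent vector `w`. -/
def LinearLeft (D : Op) : Prop :=
  ∀ Y, IsField Y → ∀ x, ‖x‖ = 1 → ∀ v w : E4, ⟪x, v⟫ = 0 → ⟪x, w⟫ = 0 →
    ∀ a b : ℝ, D x (a • v + b • w) Y = a • D x v Y + b • D x w Y

/-- `∇_w (Y + Z) = ∇_w Y + ∇_w Z`. -/
def AddRight (D : Op) : Prop :=
  ∀ Y Z, IsField Y → IsField Z → ∀ x, ‖x‖ = 1 → ∀ w : E4, ⟪x, w⟫ = 0 →
    D x w (fun y => Y y + Z y) = D x w Y + D x w Z

/-- The Leibniz rule `∇_w (f Y) = w(f) Y + f ∇_w Y`. -/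
def Leibniz (D : Op) : Prop :=
  ∀ (f : E4 → ℝ) (Y : E4 → E4), ContDiff ℝ ∞ f → IsField Y → ∀ x, ‖x‖ = 1 →
    ∀ w : E4, ⟪x, w⟫ = 0 → D x w (fun y => f y • Y y) = (fderiv ℝ f x w) • Y x + f x • D x w Y

/-- Compatibility with the metric: `X g(Y, Z) = g(∇_X Y, Z) + g(Y, ∇_X Z)`, `g = g_μ`. -/
def Metric (μ : ℝ) (D : Op) : Prop :=
  ∀ X Y Z, IsField X → IsField Y → IsField Z → ∀ x, ‖x‖ = 1 →
    fderiv ℝ (fun y => berger μ y (Y y) (Z y)) x (X x) =
      berger μ x (D x (X x) Y) (Z x) + berger μ x (Y x) (D x (X x) Z)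

/-- Vanishing of the torsion: `∇_X Y - ∇_Y X = [X, Y]`. -/
def Torsion (D : Op) : Prop :=
  ∀ X Y, IsField X → IsField Y → ∀ x, ‖x‖ = 1 →
    D x (X x) Y - D x (Y x) X = fderiv ℝ Y x (X x) - fderiv ℝ X x (Y x)

/-- `D` is the Levi-Civita connection of the Berger metric `g_μ`: an affine connection on `S³`,
compatible with `g_μ` and torsion free. -/
structure IsLeviCivita (μ : ℝ) (D : Op) : Prop where
  smooth : Smooth D
  linear_left : LinearLeft D
  add_right : AddRight D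
  leibniz : Leibniz D
  metric : Metric μ D
  torsion : Torsion D

/-- A unit vector field on `(S³, g_μ)`. -/
def IsUnitField (μ : ℝ) (V : E4 → E4) : Prop :=
  IsField V ∧ ∀ x, ‖x‖ = 1 → berger μ x (V x) (V x) = 1

/-- The Riemannian measure of `g_μ`: `√μ` times the surface measure of the round sphere. -/
noncomputable def vol (μ : ℝ) : Measure (sphere (0 : E4) 1) :=
  ENNReal.ofReal (Real.sqrt μ) • (volume : Measure E4).toSphere

/-- `‖∇^μ V‖²` at the point `x`, computed in the `g_μ`-orthonormal frame `J₀x/√μ, J₁x, J₂x`. -/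
noncomputable def normSq (μ : ℝ) (D : Op) (V : E4 → E4) (x : E4) : ℝ :=
  berger μ x (D x ((Real.sqrt μ)⁻¹ • j0 x) V) (D x ((Real.sqrt μ)⁻¹ • j0 x) V) +
  berger μ x (D x (j1 x) V) (D x (j1 x) V) + berger μ x (D x (j2 x) V) (D x (j2 x) V)

/-- The energy of the vector field `V`. -/
noncomputable def energy (μ : ℝ) (D : Op) (V : E4 → E4) : ℝ :=
  3 / 2 * (vol μ).real univ + 1 / 2 * ∫ x : sphere (0 : E4) 1, normSq μ D V x ∂(vol μ)

/-! ### Algebra of the complex structures -/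

/-- A linear map of four-space from its coordinate expression. -/
noncomputable def mk (f : E4 → E4) (h1 : ∀ x y, f (x + y) = f x + f y)
    (h2 : ∀ (c : ℝ) x, f (c • x) = c • f x) : E4 →L[ℝ] E4 :=
  LinearMap.toContinuousLinearMap { toFun := f, map_add' := h1, map_smul' := h2 }

theorem j0_add (x y : E4) : j0 (x + y) = j0 x + j0 y := by
  ext i; fin_cases i <;> simp [j0] <;> ring

theorem j0_smul (c : ℝ) (x : E4) : j0 (c • x) = c • j0 x := by
  ext i; fin_cases i <;> simp [j0]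

/-- `J₀` as a continuous linear map. -/
noncomputable def J0 : E4 →L[ℝ] E4 := mk j0 j0_add j0_smul

theorem j1_add (x y : E4) : j1 (x + y) = j1 x + j1 y := by
  ext i; fin_cases i <;> simp [j1] <;> ring

theorem j1_smul (c : ℝ) (x : E4) : j1 (c • x) = c • j1 x := by
  ext i; fin_cases i <;> simp [j1]

/-- `J₁` as a continuous linear map. -/
noncomputable def J1 : E4 →L[ℝ] E4 := mk j1 j1_add j1_smul

theorem j2_add (x y : E4) : j2 (x + y) = j2 x + j2 y := by
  ext i; fin_cases i <;> simp [j2] <;> ring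

theorem j2_smul (c : ℝ) (x : E4) : j2 (c • x) = c • j2 x := by
  ext i; fin_cases i <;> simp [j2]

/-- `J₂` as a continuous linear map. -/
noncomputable def J2 : E4 →L[ℝ] E4 := mk j2 j2_add j2_smul


theorem berger_def (μ : ℝ) (x v w : E4) :
    berger μ x v w = ⟪v, w⟫ + (μ - 1) * (⟪J0 x, v⟫ * ⟪J0 x, w⟫) := rfl

theorem normSq_def (μ : ℝ) (D : Op) (V : E4 → E4) (x : E4) : normSq μ D V x =
    berger μ x (D x ((Real.sqrt μ)⁻¹ • J0 x) V) (D x ((Real.sqrt μ)⁻¹ • J0 x) V) +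
    berger μ x (D x (J1 x) V) (D x (J1 x) V) + berger μ x (D x (J2 x) V) (D x (J2 x) V) := rfl

theorem J0_apply (x : E4) : J0 x = !₂[-x 1, x 0, -x 3, x 2] := rfl
theorem J1_apply (x : E4) : J1 x = !₂[-x 2, x 3, x 0, -x 1] := rfl
theorem J2_apply (x : E4) : J2 x = !₂[-x 3, -x 2, x 1, x 0] := rfl

/-- Right multiplication by `i`, in coordinates. -/
noncomputable def rmul (x : E4) : E4 := !₂[-x 1, x 0, x 3, -x 2]

theorem rmul_add (x y : E4) : rmul (x + y) = rmul x + rmul y := by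
  ext i; fin_cases i <;> simp [rmul] <;> ring

theorem rmul_smul (c : ℝ) (x : E4) : rmul (c • x) = c • rmul x := by
  ext i; fin_cases i <;> simp [rmul]

/-- Right multiplication by `i`. -/
noncomputable def R : E4 →L[ℝ] E4 := mk rmul rmul_add rmul_smul

theorem R_apply (x : E4) : R x = !₂[-x 1, x 0, x 3, -x 2] := rfl

theorem J00 (x : E4) : J0 (J0 x) = -x := by
  ext i; fin_cases i <;> simp [J0_apply]
theorem J11 (x : E4) : J1 (J1 x) = -x := by
  ext i; fin_cases i <;> simp [J1_apply]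
theorem J22 (x : E4) : J2 (J2 x) = -x := by
  ext i; fin_cases i <;> simp [J2_apply]
theorem J01 (x : E4) : J0 (J1 x) = J2 x := by
  ext i; fin_cases i <;> simp [J0_apply, J1_apply, J2_apply]
theorem J10 (x : E4) : J1 (J0 x) = -J2 x := by
  ext i; fin_cases i <;> simp [J0_apply, J1_apply, J2_apply]
theorem J12 (x : E4) : J1 (J2 x) = J0 x := by
  ext i; fin_cases i <;> simp [J0_apply, J1_apply, J2_apply]
theorem J21 (x : E4) : J2 (J1 x) = -J0 x := by
  ext i; fin_cases i <;> simp [J0_apply, J1_apply, J2_apply]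
theorem J20 (x : E4) : J2 (J0 x) = J1 x := by
  ext i; fin_cases i <;> simp [J0_apply, J1_apply, J2_apply]
theorem J02 (x : E4) : J0 (J2 x) = -J1 x := by
  ext i; fin_cases i <;> simp [J0_apply, J1_apply, J2_apply]
theorem RJ0 (x : E4) : R (J0 x) = J0 (R x) := by
  ext i; fin_cases i <;> simp [J0_apply, R_apply]
theorem RJ1 (x : E4) : R (J1 x) = J1 (R x) := by
  ext i; fin_cases i <;> simp [J1_apply, R_apply]
theorem RJ2 (x : E4) : R (J2 x) = J2 (R x) := by
  ext i; fin_cases i <;> simp [J2_apply, R_apply]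

theorem inner_coord (x y : E4) : ⟪x, y⟫ = x 0 * y 0 + x 1 * y 1 + x 2 * y 2 + x 3 * y 3 := by
  simp [PiLp.inner_apply, Fin.sum_univ_four]
  ring

theorem skew0 (x y : E4) : ⟪J0 x, y⟫ = -⟪x, J0 y⟫ := by
  simp [inner_coord, J0_apply]; ring
theorem isom0 (x y : E4) : ⟪J0 x, J0 y⟫ = ⟪x, y⟫ := by
  simp [inner_coord, J0_apply]; ring

theorem in_x0 (x : E4) : ⟪x, J0 x⟫ = 0 := by simp [inner_coord, J0_apply]; ring
theorem in_x1 (x : E4) : ⟪x, J1 x⟫ = 0 := by simp [inner_coord, J1_apply]; ring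
theorem in_x2 (x : E4) : ⟪x, J2 x⟫ = 0 := by simp [inner_coord, J2_apply]; ring
theorem in_0x (x : E4) : ⟪J0 x, x⟫ = 0 := by simp [inner_coord, J0_apply]; ring
theorem in_1x (x : E4) : ⟪J1 x, x⟫ = 0 := by simp [inner_coord, J1_apply]; ring
theorem in_2x (x : E4) : ⟪J2 x, x⟫ = 0 := by simp [inner_coord, J2_apply]; ring
theorem in_01 (x : E4) : ⟪J0 x, J1 x⟫ = 0 := by simp [inner_coord, J0_apply, J1_apply]; ring
theorem in_10 (x : E4) : ⟪J1 x, J0 x⟫ = 0 := by simp [inner_coord, J0_apply, J1_apply]; ring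
theorem in_02 (x : E4) : ⟪J0 x, J2 x⟫ = 0 := by simp [inner_coord, J0_apply, J2_apply]; ring
theorem in_20 (x : E4) : ⟪J2 x, J0 x⟫ = 0 := by simp [inner_coord, J0_apply, J2_apply]; ring
theorem in_12 (x : E4) : ⟪J1 x, J2 x⟫ = 0 := by simp [inner_coord, J1_apply, J2_apply]; ring
theorem in_21 (x : E4) : ⟪J2 x, J1 x⟫ = 0 := by simp [inner_coord, J1_apply, J2_apply]; ring
theorem in_00 (x : E4) : ⟪J0 x, J0 x⟫ = ⟪x, x⟫ := isom0 x x
theorem isom1 (x y : E4) : ⟪J1 x, J1 y⟫ = ⟪x, y⟫ := by simp [inner_coord, J1_apply]; ring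
theorem isom2 (x y : E4) : ⟪J2 x, J2 y⟫ = ⟪x, y⟫ := by simp [inner_coord, J2_apply]; ring
theorem in_11 (x : E4) : ⟪J1 x, J1 x⟫ = ⟪x, x⟫ := isom1 x x
theorem in_22 (x : E4) : ⟪J2 x, J2 x⟫ = ⟪x, x⟫ := isom2 x x

theorem inner_self_one {x : E4} (hx : ‖x‖ = 1) : ⟪x, x⟫ = 1 := by
  rw [real_inner_self_eq_norm_sq, hx]; norm_num

/-- Expansion of a tangent vector in the frame. -/
theorem expand {x : E4} (hx : ‖x‖ = 1) (v : E4) (hv : ⟪x, v⟫ = 0) :
    v = ⟪v, J0 x⟫ • J0 x + ⟪v, J1 x⟫ • J1 x + ⟪v, J2 x⟫ • J2 x := by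
  have h1 := inner_self_one hx
  rw [inner_coord] at h1 hv
  ext i
  fin_cases i
  · simp [inner_coord, J0_apply, J1_apply, J2_apply]
    linear_combination (-v 0) * h1 + x 0 * hv
  · simp [inner_coord, J0_apply, J1_apply, J2_apply]
    linear_combination (-v 1) * h1 + x 1 * hv
  · simp [inner_coord, J0_apply, J1_apply, J2_apply]
    linear_combination (-v 2) * h1 + x 2 * hv
  · simp [inner_coord, J0_apply, J1_apply, J2_apply]
    linear_combination (-v 3) * h1 + x 3 * hv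

theorem isField_clm (A : E4 →L[ℝ] E4) (hA : ∀ x, ⟪x, A x⟫ = 0) : IsField A :=
  ⟨A.contDiff, fun x _ => hA x⟩

theorem isField_J0 : IsField J0 := isField_clm _ in_x0
theorem isField_J1 : IsField J1 := isField_clm _ in_x1
theorem isField_J2 : IsField J2 := isField_clm _ in_x2

/-! ### The Levi-Civita connection of the Berger metric -/

/-- The explicit Levi-Civita connection: the tangential part of the Euclidean derivative plus
`(μ - 1) (η(Y) φ(w) + η(w) φ(Y))`, `η = ⟨J₀x, ·⟩`, `φ(w) = J₀w + η(w) x`. -/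
noncomputable def nabla (μ : ℝ) (x w : E4) (Y : E4 → E4) : E4 :=
  (fderiv ℝ Y x w - ⟪x, fderiv ℝ Y x w⟫ • x) +
  (μ - 1) • (⟪J0 x, Y x⟫ • (J0 w + ⟪J0 x, w⟫ • x) + ⟪J0 x, w⟫ • (J0 (Y x) + ⟪J0 x, Y x⟫ • x))

/-- A function vanishing on the sphere has vanishing derivative in tangential directions. -/
theorem fderiv_tangent {F : E4 → ℝ} {x w : E4} (hx : ‖x‖ = 1) (hw : ⟪x, w⟫ = 0)
    (hF : DifferentiableAt ℝ F x) (h0 : ∀ y, ‖y‖ = 1 → F y = 0) : fderiv ℝ F x w = 0 := by
  have key : ∀ u : E4, ‖u‖ = 1 → ⟪x, u⟫ = 0 → fderiv ℝ F x u = 0 := by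
    intro u hu hxu
    have hγ : HasDerivAt (fun t : ℝ => Real.cos t • x + Real.sin t • u)
        ((-Real.sin 0) • x + Real.cos 0 • u) 0 :=
      ((Real.hasDerivAt_cos 0).smul_const x).add ((Real.hasDerivAt_sin 0).smul_const u)
    have hcomp : HasDerivAt (F ∘ fun t : ℝ => Real.cos t • x + Real.sin t • u)
        (fderiv ℝ F x ((-Real.sin 0) • x + Real.cos 0 • u)) 0 := by
      apply HasFDerivAt.comp_hasDerivAt
      · have h3 : Real.cos 0 • x + Real.sin 0 • u = x := by simp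
        rw [h3]; exact hF.hasFDerivAt
      · exact hγ
    have hz : (F ∘ fun t : ℝ => Real.cos t • x + Real.sin t • u) = fun _ => 0 := by
      funext t
      apply h0
      have : ‖Real.cos t • x + Real.sin t • u‖ ^ 2 = 1 := by
        rw [← real_inner_self_eq_norm_sq]
        simp only [inner_add_left, inner_add_right, real_inner_smul_left, real_inner_smul_right]
        rw [real_inner_comm x u, hxu, inner_self_one hx, inner_self_one hu]
        have := Real.sin_sq_add_cos_sq t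
        linarith
      have h2 : 0 ≤ ‖Real.cos t • x + Real.sin t • u‖ := norm_nonneg _
      nlinarith
    rw [hz] at hcomp
    have := hcomp.unique (hasDerivAt_const (0 : ℝ) (0 : ℝ))
    simpa using this
  by_cases hw0 : w = 0
  · rw [hw0, map_zero]
  · have hn : ‖w‖ ≠ 0 := norm_ne_zero_iff.2 hw0
    have h1 : w = ‖w‖ • (‖w‖⁻¹ • w) := by
      rw [smul_smul, mul_inv_cancel₀ hn, one_smul]
    rw [h1, map_smul, key, smul_zero]
    · rw [norm_smul, norm_inv, norm_norm, inv_mul_cancel₀ hn]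
    · rw [real_inner_smul_right, hw, mul_zero]

theorem IsField.diff {Y : E4 → E4} (h : IsField Y) (x : E4) : DifferentiableAt ℝ Y x :=
  (h.1.differentiable (by norm_num)) x

theorem field_deriv {Y : E4 → E4} (hY : IsField Y) {x w : E4} (hx : ‖x‖ = 1)
    (hw : ⟪x, w⟫ = 0) : ⟪x, fderiv ℝ Y x w⟫ = -⟪w, Y x⟫ := by
  have h1 : HasFDerivAt (fun y : E4 => ⟪y, Y y⟫)
      ((fderivInnerCLM ℝ (x, Y x)).comp ((ContinuousLinearMap.id ℝ E4).prod (fderiv ℝ Y x))) x :=
    (hasFDerivAt_id x).inner ℝ (hY.diff x).hasFDerivAt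
  have h2 := fderiv_tangent hx hw h1.differentiableAt hY.2
  rw [h1.fderiv] at h2
  simp [fderivInnerCLM_apply] at h2
  linarith

theorem fderiv_berger (μ : ℝ) {Y Z : E4 → E4} {x : E4} (hY : DifferentiableAt ℝ Y x)
    (hZ : DifferentiableAt ℝ Z x) (w : E4) :
    fderiv ℝ (fun y => berger μ y (Y y) (Z y)) x w =
      ⟪fderiv ℝ Y x w, Z x⟫ + ⟪Y x, fderiv ℝ Z x w⟫ +
      (μ - 1) * ((⟪J0 w, Y x⟫ + ⟪J0 x, fderiv ℝ Y x w⟫) * ⟪J0 x, Z x⟫ +
        ⟪J0 x, Y x⟫ * (⟪J0 w, Z x⟫ + ⟪J0 x, fderiv ℝ Z x w⟫)) := by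
  have h1 := hY.hasFDerivAt.inner ℝ hZ.hasFDerivAt
  have h2 := (J0.hasFDerivAt (x := x)).inner ℝ hY.hasFDerivAt
  have h3 := (J0.hasFDerivAt (x := x)).inner ℝ hZ.hasFDerivAt
  have h4 := h1.add ((h2.mul h3).const_mul (μ - 1))
  have h5 : (fun y => berger μ y (Y y) (Z y)) =
      fun y => ⟪Y y, Z y⟫ + (μ - 1) * (⟪J0 y, Y y⟫ * ⟪J0 y, Z y⟫) := rfl
  rw [h5]
  have h6 := h4.fderiv
  rw [show (fun y => ⟪Y y, Z y⟫ + (μ - 1) * (⟪J0 y, Y y⟫ * ⟪J0 y, Z y⟫)) =
    ((fun t => ⟪Y t, Z t⟫) + fun y => (μ - 1) * ((fun t => ⟪J0 t, Y t⟫) * fun t => ⟪J0 t, Z t⟫) y)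
    from rfl, h6]
  simp [fderivInnerCLM_apply]
  ring

theorem isLeviCivita_nabla (μ : ℝ) : IsLeviCivita μ (nabla μ) where
  smooth := by
    intro X Y hX hY
    refine ⟨fun x => nabla μ x (X x) Y, ⟨?_, ?_⟩, fun x _ => rfl⟩
    · have hX1 := hX.1
      have hY1 := hY.1
      have hJ : ContDiff ℝ ∞ (fun x : E4 => J0 x) := J0.contDiff
      have hJX : ContDiff ℝ ∞ (fun x : E4 => J0 (X x)) := J0.contDiff.comp hX1
      have hJY : ContDiff ℝ ∞ (fun x : E4 => J0 (Y x)) := J0.contDiff.comp hY1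
      have hD : ContDiff ℝ ∞ (fun x : E4 => fderiv ℝ Y x (X x)) :=
        (hY1.fderiv_right (by norm_num)).clm_apply hX1
      have hid : ContDiff ℝ ∞ (fun x : E4 => x) := contDiff_id
      have hηX : ContDiff ℝ ∞ (fun x : E4 => ⟪J0 x, X x⟫) := hJ.inner ℝ hX1
      have hηY : ContDiff ℝ ∞ (fun x : E4 => ⟪J0 x, Y x⟫) := hJ.inner ℝ hY1
      have k1 : ContDiff ℝ ∞ (fun x : E4 => ⟪x, fderiv ℝ Y x (X x)⟫ • x) :=
        (hid.inner ℝ hD).smul hid
      have k2 : ContDiff ℝ ∞ (fun x : E4 => ⟪J0 x, X x⟫ • x) := hηX.smul hid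
      have k3 : ContDiff ℝ ∞ (fun x : E4 => ⟪J0 x, Y x⟫ • x) := hηY.smul hid
      have k4 : ContDiff ℝ ∞ (fun x : E4 => ⟪J0 x, Y x⟫ • (J0 (X x) + ⟪J0 x, X x⟫ • x)) :=
        hηY.smul (hJX.add k2)
      have k5 : ContDiff ℝ ∞ (fun x : E4 => ⟪J0 x, X x⟫ • (J0 (Y x) + ⟪J0 x, Y x⟫ • x)) :=
        hηX.smul (hJY.add k3)
      have k6 : ContDiff ℝ ∞ (fun x : E4 => (μ - 1) •
          (⟪J0 x, Y x⟫ • (J0 (X x) + ⟪J0 x, X x⟫ • x) +
            ⟪J0 x, X x⟫ • (J0 (Y x) + ⟪J0 x, Y x⟫ • x))) := (k4.add k5).const_smul (μ - 1)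
      exact (hD.sub k1).add k6
    · intro x hx
      have h1 := inner_self_one hx
      simp only [nabla, inner_add_right, inner_sub_right, real_inner_smul_right]
      have h2 : ⟪x, J0 (X x)⟫ = -⟪J0 x, X x⟫ := by rw [skew0]; simp
      have h3 : ⟪x, J0 (Y x)⟫ = -⟪J0 x, Y x⟫ := by rw [skew0]; simp
      rw [h1, h2, h3]
      ring
  linear_left := by
    intro Y hY x hx v w hv hw a b
    simp only [nabla, map_add, map_smul, inner_add_right, real_inner_smul_right]
    module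
  add_right := by
    intro Y Z hY hZ x hx w hw
    have h : fderiv ℝ (fun y => Y y + Z y) x w = fderiv ℝ Y x w + fderiv ℝ Z x w := by
      rw [fderiv_fun_add (hY.diff x) (hZ.diff x)]
      rfl
    simp only [nabla, h, map_add, inner_add_right]
    module
  leibniz := by
    intro f Y hf hY x hx w hw
    have hfd : DifferentiableAt ℝ f x := (hf.differentiable (by norm_num)) x
    have h : fderiv ℝ (fun y => f y • Y y) x w = f x • fderiv ℝ Y x w + (fderiv ℝ f x w) • Y x := by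
      rw [fderiv_fun_smul hfd (hY.diff x)]
      simp
    have h2 := hY.2 x hx
    simp only [nabla, h, map_smul, inner_add_right, real_inner_smul_right, h2]
    module
  metric := by
    intro X Y Z hX hY hZ x hx
    rw [fderiv_berger μ (hY.diff x) (hZ.diff x)]
    have hX2 := hX.2 x hx
    have hY2 := hY.2 x hx
    have hZ2 := hZ.2 x hx
    have h1 := inner_self_one hx
    have e1 : ⟪J0 x, J0 (X x)⟫ = 0 := by rw [isom0, hX2]
    have e2 : ⟪J0 x, J0 (Y x)⟫ = 0 := by rw [isom0, hY2]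
    have e3 : ⟪J0 x, J0 (Z x)⟫ = 0 := by rw [isom0, hZ2]
    have e4 : ⟪J0 x, x⟫ = 0 := in_0x x
    have e5 : ⟪Y x, x⟫ = 0 := by rw [real_inner_comm, hY2]
    have e6 : ⟪Y x, J0 (X x)⟫ = ⟪J0 (X x), Y x⟫ := real_inner_comm _ _
    have e7 : ⟪Y x, J0 (Z x)⟫ = -⟪J0 (Y x), Z x⟫ := by rw [skew0]; simp
    have e8 : ⟪x, Z x⟫ = 0 := hZ2
    simp only [berger_def, nabla, inner_add_right, inner_add_left, inner_sub_left, inner_sub_right,
      real_inner_smul_right, real_inner_smul_left, e1, e2, e3, e4, e5, e6, e7, e8]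
    ring
  torsion := by
    intro X Y hX hY x hx
    have h1 := field_deriv hY hx (hX.2 x hx)
    have h2 := field_deriv hX hx (hY.2 x hx)
    have h3 : ⟪Y x, X x⟫ = ⟪X x, Y x⟫ := real_inner_comm _ _
    simp only [nabla]
    rw [h1, h2, h3]
    module

theorem berger_comm (μ : ℝ) (x v w : E4) : berger μ x v w = berger μ x w v := by
  simp only [berger_def, real_inner_comm v w]
  ring

theorem berger_sub (μ : ℝ) (x u v w : E4) :
    berger μ x (u - v) w = berger μ x u w - berger μ x v w := by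
  simp only [berger_def, inner_sub_left, inner_sub_right]
  ring

/-- Uniqueness of the Levi-Civita connection. -/
theorem unique {μ : ℝ} (hμ : 0 < μ) {D : Op} (hD : IsLeviCivita μ D)
    {X Y : E4 → E4} (hX : IsField X) (hY : IsField Y) {x : E4} (hx : ‖x‖ = 1) :
    D x (X x) Y = nabla μ x (X x) Y := by
  have hN := isLeviCivita_nabla μ
  have skew : ∀ X Y Z, IsField X → IsField Y → IsField Z →
      berger μ x (D x (X x) Y - nabla μ x (X x) Y) (Z x) =
      -berger μ x (D x (X x) Z - nabla μ x (X x) Z) (Y x) := by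
    intro X Y Z hX hY hZ
    have h1 := hD.metric X Y Z hX hY hZ x hx
    have h2 := hN.metric X Y Z hX hY hZ x hx
    rw [h1] at h2
    rw [berger_comm μ x (Y x), berger_comm μ x (Y x)] at h2
    rw [berger_sub, berger_sub]
    linarith
  have symm : ∀ X Y Z, IsField X → IsField Y → IsField Z →
      berger μ x (D x (X x) Y - nabla μ x (X x) Y) (Z x) =
      berger μ x (D x (Y x) X - nabla μ x (Y x) X) (Z x) := by
    intro X Y Z hX hY hZ
    have h1 := hD.torsion X Y hX hY x hx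
    have h2 := hN.torsion X Y hX hY x hx
    have h3 : D x (X x) Y - nabla μ x (X x) Y = D x (Y x) X - nabla μ x (Y x) X := by
      rw [← h2] at h1
      rw [sub_eq_sub_iff_add_eq_add] at h1 ⊢
      rw [h1]
      abel
    rw [h3]
  have hz : ∀ Z, IsField Z → berger μ x (D x (X x) Y - nabla μ x (X x) Y) (Z x) = 0 := by
    intro Z hZ
    have a1 := skew X Y Z hX hY hZ
    have a2 := symm X Z Y hX hZ hY
    have a3 := skew Z X Y hZ hX hY
    have a4 := symm Z Y X hZ hY hX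
    have a5 := skew Y Z X hY hZ hX
    have a6 := symm Y X Z hY hX hZ
    linarith
  obtain ⟨W, hW, hWx⟩ := hD.smooth X Y hX hY
  obtain ⟨W', hW', hWx'⟩ := hN.smooth X Y hX hY
  set Δ := D x (X x) Y - nabla μ x (X x) Y with hΔ
  have ht : ⟪x, Δ⟫ = 0 := by
    rw [hΔ, ← hWx x hx, ← hWx' x hx, inner_sub_right, hW.2 x hx, hW'.2 x hx, sub_zero]
  have h0 := hz J0 isField_J0
  have h1 := hz J1 isField_J1
  have h2 := hz J2 isField_J2
  simp only [berger_def, in_00, in_01, in_02, inner_self_one hx, mul_one, mul_zero, add_zero] at h0 h1 h2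
  rw [real_inner_comm Δ (J0 x)] at h0
  have h0' : μ * ⟪Δ, J0 x⟫ = 0 := by linarith
  have h0'' : ⟪Δ, J0 x⟫ = 0 := by
    rcases mul_eq_zero.1 h0' with h | h
    · exact absurd h hμ.ne'
    · exact h
  have hexp := expand hx Δ ht
  rw [h0'', h1, h2] at hexp
  have : Δ = 0 := by rw [hexp]; simp
  exact sub_eq_zero.1 this

/-! ### The test field -/

/-- The modified anti-Hopf field `x i + (1/m - 1) ⟨x i, i x⟩ i x`, `m = √μ`. -/
noncomputable def VV (m : ℝ) (x : E4) : E4 := R x + ((m⁻¹ - 1) * ⟪R x, J0 x⟫) • J0 x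

theorem in_xR (x : E4) : ⟪x, R x⟫ = 0 := by simp [inner_coord, R_apply]; ring

theorem isField_VV (m : ℝ) : IsField (VV m) := by
  constructor
  · have h1 : ContDiff ℝ ∞ (fun x : E4 => R x) := R.contDiff
    have h2 : ContDiff ℝ ∞ (fun x : E4 => J0 x) := J0.contDiff
    have h3 : ContDiff ℝ ∞ (fun x : E4 => ⟪R x, J0 x⟫) := h1.inner ℝ h2
    have h4 : ContDiff ℝ ∞ (fun x : E4 => (m⁻¹ - 1) * ⟪R x, J0 x⟫) := contDiff_const.mul h3
    exact h1.add (h4.smul h2)
  · intro x _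
    simp only [VV, inner_add_right, real_inner_smul_right, in_xR, in_x0]
    ring

theorem isomR (x y : E4) : ⟪R x, R y⟫ = ⟪x, y⟫ := by simp [inner_coord, R_apply]; ring
theorem norm_R (x : E4) : ⟪R x, R x⟫ = ⟪x, x⟫ := isomR x x

theorem isUnit_VV {μ m : ℝ} (hm : 0 < m) (hμ : μ = m ^ 2) : IsUnitField μ (VV m) := by
  refine ⟨isField_VV m, fun x hx => ?_⟩
  have h1 := inner_self_one hx
  have h2 : ⟪J0 x, R x⟫ = ⟪R x, J0 x⟫ := real_inner_comm _ _
  simp only [berger_def, VV, inner_add_left, inner_add_right, real_inner_smul_left,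
    real_inner_smul_right, norm_R, in_00, h1, h2]
  rw [hμ]
  field_simp
  ring

theorem fderiv_VV (m : ℝ) (x w : E4) : fderiv ℝ (VV m) x w =
    R w + ((m⁻¹ - 1) * (⟪R w, J0 x⟫ + ⟪R x, J0 w⟫)) • J0 x +
      ((m⁻¹ - 1) * ⟪R x, J0 x⟫) • J0 w := by
  have h1 := (R.hasFDerivAt (x := x))
  have h2 := (J0.hasFDerivAt (x := x))
  have h3 := ((h1.inner ℝ h2).const_mul (m⁻¹ - 1)).smul h2
  have h4 := (h1.add h3).fderiv
  have h5 : VV m = (⇑R + (fun y => (m⁻¹ - 1) * (fun t => ⟪R t, J0 t⟫) y) • ⇑J0) := rfl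
  rw [h5, h4]
  simp [fderivInnerCLM_apply]
  module

section frame

variable {x : E4} {m μ q b d : ℝ}

theorem nabla_V1 (hx : ‖x‖ = 1) (hm : 0 < m) (hμ : μ = m ^ 2)
    (hR : R x = q • J0 x + b • J1 x + d • J2 x) :
    nabla μ x (J1 x) (VV m) = ((2 - m) * d / m) • J0 x + (0 : ℝ) • J1 x +
      ((m - 2) * q) • J2 x := by
  have h1 := inner_self_one hx
  rw [nabla, fderiv_VV, VV]
  simp only [RJ1, hR, map_add, map_smul, J00, J01, J02, J10, J11, J12, inner_add_left,
    inner_add_right, inner_sub_left, inner_sub_right, real_inner_smul_left, real_inner_smul_right,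
    inner_neg_left, inner_neg_right, in_x0, in_x1, in_x2, in_0x, in_1x, in_2x, in_01, in_10,
    in_02, in_20, in_12, in_21, in_00, in_11, in_22, h1, hμ]
  match_scalars <;> field_simp <;> ring

theorem nabla_V2 (hx : ‖x‖ = 1) (hm : 0 < m) (hμ : μ = m ^ 2)
    (hR : R x = q • J0 x + b • J1 x + d • J2 x) :
    nabla μ x (J2 x) (VV m) = ((m - 2) * b / m) • J0 x + ((2 - m) * q) • J1 x +
      (0 : ℝ) • J2 x := by
  have h1 := inner_self_one hx
  rw [nabla, fderiv_VV, VV]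
  simp only [RJ2, hR, map_add, map_smul, J00, J01, J02, J20, J21, J22, inner_add_left,
    inner_add_right, inner_sub_left, inner_sub_right, real_inner_smul_left, real_inner_smul_right,
    inner_neg_left, inner_neg_right, in_x0, in_x1, in_x2, in_0x, in_1x, in_2x, in_01, in_10,
    in_02, in_20, in_12, in_21, in_00, in_11, in_22, h1, hμ]
  match_scalars <;> field_simp <;> ring

theorem nabla_V0 (hx : ‖x‖ = 1) (hm : 0 < m) (hμ : μ = m ^ 2)
    (hR : R x = q • J0 x + b • J1 x + d • J2 x) :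
    nabla μ x (m⁻¹ • J0 x) (VV m) = (0 : ℝ) • J0 x + (-(m * d)) • J1 x + (m * b) • J2 x := by
  have h1 := inner_self_one hx
  rw [nabla, fderiv_VV, VV]
  simp only [RJ0, hR, map_add, map_smul, J00, J01, J02, inner_add_left,
    inner_add_right, inner_sub_left, inner_sub_right, real_inner_smul_left, real_inner_smul_right,
    inner_neg_left, inner_neg_right, in_x0, in_x1, in_x2, in_0x, in_1x, in_2x, in_01, in_10,
    in_02, in_20, in_12, in_21, in_00, in_11, in_22, h1, hμ]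
  match_scalars <;> field_simp <;> ring

theorem berger_frame (hx : ‖x‖ = 1) (μ α β γ : ℝ) :
    berger μ x (α • J0 x + β • J1 x + γ • J2 x) (α • J0 x + β • J1 x + γ • J2 x) =
      μ * α ^ 2 + β ^ 2 + γ ^ 2 := by
  have h1 := inner_self_one hx
  simp only [berger_def, inner_add_left, inner_add_right, real_inner_smul_left, real_inner_smul_right,
    in_01, in_10, in_02, in_20, in_12, in_21, in_00, in_11, in_22, h1]
  ring

end frame

theorem normSq_VV {μ m : ℝ} (hm : 0 < m) (hμ : μ = m ^ 2) {D : Op}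
    (hD : IsLeviCivita μ D) {x : E4} (hx : ‖x‖ = 1) :
    normSq μ D (VV m) x = 2 * m ^ 2 - 4 * m + 4 - 4 * (m - 1) * ⟪R x, J0 x⟫ ^ 2 := by
  have hμ0 : 0 < μ := by rw [hμ]; positivity
  have hsq : Real.sqrt μ = m := by rw [hμ]; exact Real.sqrt_sq hm.le
  have hR := expand hx (R x) (in_xR x)
  set q := ⟪R x, J0 x⟫ with hq
  set b := ⟪R x, J1 x⟫ with hb
  set d := ⟪R x, J2 x⟫ with hd
  have hn : q ^ 2 + b ^ 2 + d ^ 2 = 1 := by
    have h1 := inner_self_one hx
    have h2 := norm_R x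
    rw [h1, hR] at h2
    simp only [inner_add_left, inner_add_right, real_inner_smul_left, real_inner_smul_right,
      in_01, in_10, in_02, in_20, in_12, in_21, in_00, in_11, in_22, h1] at h2
    linarith
  have hF0 : IsField (m⁻¹ • J0 : E4 →L[ℝ] E4) := by
    apply isField_clm
    intro y
    rw [_root_.smul_apply, real_inner_smul_right, in_x0, mul_zero]
  have e0 := unique hμ0 hD hF0 (isField_VV m) hx
  rw [_root_.smul_apply] at e0
  have e1 := unique hμ0 hD isField_J1 (isField_VV m) hx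
  have e2 := unique hμ0 hD isField_J2 (isField_VV m) hx
  rw [normSq_def, hsq, e0, e1, e2, nabla_V0 hx hm hμ hR, nabla_V1 hx hm hμ hR, nabla_V2 hx hm hμ hR,
    berger_frame hx, berger_frame hx, berger_frame hx, hμ]
  have h3 : m ^ 2 * ((2 - m) * d / m) ^ 2 = ((2 - m) * d) ^ 2 := by field_simp
  have h4 : m ^ 2 * ((m - 2) * b / m) ^ 2 = ((m - 2) * b) ^ 2 := by field_simp
  rw [h3, h4]
  linear_combination (m ^ 2 + (2 - m) ^ 2) * hn

/-- The field `a₁ E₁ + a₂ E₂`. -/
noncomputable def XX (a₁ a₂ : ℝ) : E4 →L[ℝ] E4 := a₁ • J1 + a₂ • J2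

theorem isField_XX (a₁ a₂ : ℝ) : IsField (XX a₁ a₂) := by
  apply isField_clm
  intro x
  simp only [XX, _root_.add_apply, _root_.smul_apply, inner_add_right,
    real_inner_smul_right, in_x1, in_x2, mul_zero, add_zero]

theorem nabla_X0 {x : E4} (hx : ‖x‖ = 1) {m : ℝ} (hm : 0 < m) (a₁ a₂ : ℝ) :
    nabla (m ^ 2) x (m⁻¹ • J0 x) (XX a₁ a₂) = (0 : ℝ) • J0 x +
      (-(m ^ 2 - 2) / m * a₂) • J1 x + ((m ^ 2 - 2) / m * a₁) • J2 x := by
  have h1 := inner_self_one hx
  rw [nabla, ContinuousLinearMap.fderiv]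
  simp only [XX, _root_.add_apply, _root_.smul_apply,
    map_add, map_smul, J00, J01, J02, J10, J20, inner_add_left,
    inner_add_right, inner_sub_left, inner_sub_right, real_inner_smul_left, real_inner_smul_right,
    inner_neg_left, inner_neg_right, in_x0, in_x1, in_x2, in_0x, in_1x, in_2x, in_01, in_10,
    in_02, in_20, in_12, in_21, in_00, in_11, in_22, h1]
  match_scalars <;> field_simp <;> ring

theorem nabla_X1 {x : E4} (hx : ‖x‖ = 1) (m : ℝ) (a₁ a₂ : ℝ) :
    nabla (m ^ 2) x (J1 x) (XX a₁ a₂) = (-a₂) • J0 x + (0 : ℝ) • J1 x + (0 : ℝ) • J2 x := by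
  have h1 := inner_self_one hx
  rw [nabla, ContinuousLinearMap.fderiv]
  simp only [XX, _root_.add_apply, _root_.smul_apply,
    map_add, map_smul, J00, J01, J02, J10, J11, J12, J20, J21, J22, inner_add_left,
    inner_add_right, inner_sub_left, inner_sub_right, real_inner_smul_left, real_inner_smul_right,
    inner_neg_left, inner_neg_right, in_x0, in_x1, in_x2, in_0x, in_1x, in_2x, in_01, in_10,
    in_02, in_20, in_12, in_21, in_00, in_11, in_22, h1]
  module

theorem nabla_X2 {x : E4} (hx : ‖x‖ = 1) (m : ℝ) (a₁ a₂ : ℝ) :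
    nabla (m ^ 2) x (J2 x) (XX a₁ a₂) = a₁ • J0 x + (0 : ℝ) • J1 x + (0 : ℝ) • J2 x := by
  have h1 := inner_self_one hx
  rw [nabla, ContinuousLinearMap.fderiv]
  simp only [XX, _root_.add_apply, _root_.smul_apply,
    map_add, map_smul, J00, J01, J02, J10, J11, J12, J20, J21, J22, inner_add_left,
    inner_add_right, inner_sub_left, inner_sub_right, real_inner_smul_left, real_inner_smul_right,
    inner_neg_left, inner_neg_right, in_x0, in_x1, in_x2, in_0x, in_1x, in_2x, in_01, in_10,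
    in_02, in_20, in_12, in_21, in_00, in_11, in_22, h1]
  module

theorem normSq_XX {μ m : ℝ} (hm : 0 < m) (hμ : μ = m ^ 2) {D : Op}
    (hD : IsLeviCivita μ D) {a₁ a₂ : ℝ} (ha : a₁ ^ 2 + a₂ ^ 2 = 1) {x : E4} (hx : ‖x‖ = 1) :
    normSq μ D (XX a₁ a₂) x = 2 * μ + 4 / μ - 4 := by
  have hμ0 : 0 < μ := by rw [hμ]; positivity
  have hsq : Real.sqrt μ = m := by rw [hμ]; exact Real.sqrt_sq hm.le
  have hF0 : IsField (m⁻¹ • J0 : E4 →L[ℝ] E4) := by
    apply isField_clm
    intro y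
    rw [_root_.smul_apply, real_inner_smul_right, in_x0, mul_zero]
  have e0 := unique hμ0 hD hF0 (isField_XX a₁ a₂) hx
  rw [_root_.smul_apply] at e0
  have e1 := unique hμ0 hD isField_J1 (isField_XX a₁ a₂) hx
  have e2 := unique hμ0 hD isField_J2 (isField_XX a₁ a₂) hx
  rw [normSq_def, hsq, e0, e1, e2, hμ, nabla_X0 hx hm, nabla_X1 hx, nabla_X2 hx,
    berger_frame hx, berger_frame hx, berger_frame hx]
  field_simp
  linear_combination ((m ^ 2 - 2) ^ 2 + m ^ 4) * ha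

theorem isUnit_XX (μ : ℝ) {a₁ a₂ : ℝ} (ha : a₁ ^ 2 + a₂ ^ 2 = 1) : IsUnitField μ (XX a₁ a₂) := by
  refine ⟨isField_XX a₁ a₂, fun x hx => ?_⟩
  have h1 := inner_self_one hx
  simp only [berger_def, XX, _root_.add_apply, _root_.smul_apply,
    inner_add_left, inner_add_right, real_inner_smul_left, real_inner_smul_right,
    in_01, in_02, in_12, in_21, in_11, in_22, h1]
  linear_combination ha

theorem vol_pos {μ : ℝ} (hμ : 0 < μ) : 0 < (vol μ).real univ := by
  have h1 : (0 : ℝ) < Real.sqrt μ := Real.sqrt_pos.2 hμ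
  have h2 : (volume : Measure E4).toSphere univ ≠ 0 := by
    rw [Ne, Measure.measure_univ_eq_zero]
    exact Measure.toSphere_ne_zero _
  rw [vol, measureReal_def, Measure.smul_apply, smul_eq_mul, ENNReal.toReal_mul]
  refine mul_pos ?_ ?_
  · rw [ENNReal.toReal_ofReal h1.le]; exact h1
  · exact ENNReal.toReal_pos h2 (measure_ne_top _ _)

instance (μ : ℝ) : IsFiniteMeasure (vol μ) := by
  unfold vol
  exact Measure.smul_finite _ ENNReal.ofReal_ne_top

theorem norm_coe (x : sphere (0 : E4) 1) : ‖(x : E4)‖ = 1 := by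
  have := x.2
  rwa [mem_sphere_zero_iff_norm] at this

theorem berger_nonneg {μ : ℝ} (hμ : 1 ≤ μ) (x v : E4) : 0 ≤ berger μ x v v := by
  rw [berger_def]
  have h1 : 0 ≤ ⟪v, v⟫ := real_inner_self_nonneg
  have h2 : 0 ≤ ⟪J0 x, v⟫ * ⟪J0 x, v⟫ := mul_self_nonneg _
  have h3 : 0 ≤ (μ - 1) * (⟪J0 x, v⟫ * ⟪J0 x, v⟫) := mul_nonneg (by linarith) h2
  linarith

theorem integrable_VV {μ m : ℝ} (hm : 0 < m) (hμ : μ = m ^ 2) {D : Op}
    (hD : IsLeviCivita μ D) :
    Integrable (fun x : sphere (0 : E4) 1 => normSq μ D (VV m) x) (vol μ) := by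
  have h1 : (fun x : sphere (0 : E4) 1 => normSq μ D (VV m) x) =
      fun x : sphere (0 : E4) 1 =>
        2 * m ^ 2 - 4 * m + 4 - 4 * (m - 1) * ⟪R (x : E4), J0 (x : E4)⟫ ^ 2 := by
    funext x
    exact normSq_VV hm hμ hD (norm_coe x)
  rw [h1]
  apply Continuous.integrable_of_hasCompactSupport
  · fun_prop
  · exact HasCompactSupport.of_compactSpace _

/-- The constant `(3/2 + μ + 2 (1-μ)/μ) vol(S³, g_μ)`. -/
noncomputable def bound (μ : ℝ) : ℝ := (3 / 2 + μ + 2 * ((1 - μ) / μ)) * (vol μ).real univ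

/-- The field `X = a₁ E₁ + a₂ E₂`. -/
noncomputable def fieldX (a₁ a₂ : ℝ) (x : E4) : E4 := a₁ • j1 x + a₂ • j2 x

/-- **The fields `X = a₁E₁ + a₂E₂` do not minimise the energy on the Berger spheres with
`μ > ((1 + √5)/2)² ≈ 2.618`.**  First part: for every `μ > 0` the Levi-Civita connection of
`g_μ` exists (so the statements about it are not vacuous).  Second part: for each such `μ` there
is a unit vector field `V` on `(S³, g_μ)` with energy strictly below
`(3/2 + μ + 2 (1-μ)/μ) vol(S³, g_μ)`, which is the energy of the fields `X`. -/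
theorem result :
    (∀ μ : ℝ, 0 < μ → ∃ D, IsLeviCivita μ D) ∧
    ∀ μ : ℝ, ((1 + Real.sqrt 5) / 2) ^ 2 < μ →
      ∃ V, IsUnitField μ V ∧ ∀ D, IsLeviCivita μ D →
        Integrable (fun x : sphere (0 : E4) 1 => normSq μ D V x) (vol μ) ∧
        energy μ D V < bound μ ∧
        ∀ a₁ a₂ : ℝ, a₁ ^ 2 + a₂ ^ 2 = 1 →
          IsUnitField μ (fieldX a₁ a₂) ∧ energy μ D (fieldX a₁ a₂) = bound μ := by
  refine ⟨fun μ _ => ⟨nabla μ, isLeviCivita_nabla μ⟩, fun μ hμ => ?_⟩
  have h5 : Real.sqrt 5 ^ 2 = 5 := Real.sq_sqrt (by norm_num)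
  have h50 : 0 ≤ Real.sqrt 5 := Real.sqrt_nonneg _
  have h52 : 2 < Real.sqrt 5 := Real.lt_sqrt_of_sq_lt (by norm_num)
  set φ := (1 + Real.sqrt 5) / 2 with hφ
  have hφ2 : φ ^ 2 = φ + 1 := by rw [hφ]; linear_combination h5 / 4
  have hφ1 : 3 / 2 < φ := by rw [hφ]; linarith
  have hμ0 : 0 < μ := lt_trans (by positivity) hμ
  set m := Real.sqrt μ with hm
  have hm0 : 0 < m := Real.sqrt_pos.2 hμ0
  have hμm : μ = m ^ 2 := (Real.sq_sqrt hμ0.le).symm
  have hmφ : φ < m := by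
    rw [hμm] at hμ
    exact lt_of_pow_lt_pow_left₀ 2 hm0.le hμ
  have hμ1 : 1 ≤ μ := by rw [hμm]; nlinarith
  have hvol := vol_pos hμ0
  refine ⟨VV m, isUnit_VV hm0 hμm, fun D hD => ⟨integrable_VV hm0 hμm hD, ?_,
    fun a₁ a₂ ha => ⟨isUnit_XX μ ha, ?_⟩⟩⟩
  · have hint : ∫ x : sphere (0 : E4) 1, normSq μ D (VV m) x ∂(vol μ) ≤
        (2 * m ^ 2 - 4 * m + 4) * (vol μ).real univ := by
      have h1 : ∫ x : sphere (0 : E4) 1, normSq μ D (VV m) x ∂(vol μ) ≤
          ∫ _ : sphere (0 : E4) 1, (2 * m ^ 2 - 4 * m + 4) ∂(vol μ) := by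
        apply integral_mono_of_nonneg
        · refine Filter.Eventually.of_forall fun x => ?_
          show 0 ≤ normSq μ D (VV m) x
          rw [normSq_def]
          have := berger_nonneg hμ1 (x : E4) (D x ((Real.sqrt μ)⁻¹ • J0 (x : E4)) (VV m))
          have := berger_nonneg hμ1 (x : E4) (D x (J1 (x : E4)) (VV m))
          have := berger_nonneg hμ1 (x : E4) (D x (J2 (x : E4)) (VV m))
          positivity
        · exact integrable_const _
        · refine Filter.Eventually.of_forall fun x => ?_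
          show normSq μ D (VV m) x ≤ _
          rw [normSq_VV hm0 hμm hD (norm_coe x)]
          have : 0 ≤ 4 * (m - 1) * ⟪R (x : E4), J0 (x : E4)⟫ ^ 2 :=
            mul_nonneg (by linarith) (sq_nonneg _)
          linarith
      rw [integral_const, smul_eq_mul] at h1
      linarith
    have hkey : 2 * m ^ 2 - 4 * m + 4 < 2 * μ + 4 / μ - 4 := by
      rw [hμm]
      have h1 : 0 < (m - 1) * (m ^ 2 - m - 1) := by
        apply mul_pos (by linarith)
        nlinarith
      have h2 : 4 / m ^ 2 - (8 - 4 * m) = 4 * ((m - 1) * (m ^ 2 - m - 1)) / m ^ 2 := by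
        field_simp
        ring
      have h3 : 0 < 4 * ((m - 1) * (m ^ 2 - m - 1)) / m ^ 2 := by positivity
      linarith
    have h2 : (3 / 2 + μ + 2 * ((1 - μ) / μ)) * (vol μ).real univ =
        3 / 2 * (vol μ).real univ + 1 / 2 * ((2 * μ + 4 / μ - 4) * (vol μ).real univ) := by
      field_simp
      ring
    have h3 := mul_lt_mul_of_pos_right hkey hvol
    rw [energy, bound, h2]
    linarith
  · have h1 : ∀ x : sphere (0 : E4) 1,
        normSq μ D (fieldX a₁ a₂) x = 2 * μ + 4 / μ - 4 :=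
      fun x => normSq_XX hm0 hμm hD ha (norm_coe x)
    rw [energy, bound]
    simp only [h1, integral_const, smul_eq_mul]
    field_simp
    ring

end Pool.Agent.Results.MP_627409_gt.AntiHopf
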